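import Pool.Agent.N684.BK.Stm

/-!
# BK/CLEAN: minimally dependent subfamilies, and bicliques
-/

set_option autoImplicit false

open MvPolynomial

namespace Pool.Agent.N615.BK.CLEAN

open Pool.Agent.N684.BK

theorem Ind_equiv {F : Type} [Field F] {N : ℕ} {ι κ : Type}
    (W : Submodule F (MvPolynomial (Fin N) F)) (X : ι → Fin N → F) (e : κ ≃ ι)
    (h : Ind W (X ∘ e)) : Ind W X := by
  intro g
  obtain ⟨w, hw⟩ := h (g ∘ e)
  refine ⟨w, ?_⟩
  funext i
  have h1 := congrFun hw (e.symm i)
  simpa using h1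

theorem CLEAN : S_CLEAN := by
  classical
  intro F _ N s W V h A hA hV
  by_contra hI
  have hex : ∃ j, ∃ A' : Fin j → Fin N → F, Function.Injective A' ∧ Set.range A' ⊆ V ∧
      ¬ Ind W A' := ⟨s, A, hA, hV, hI⟩
  obtain ⟨A', h1, h2, h3⟩ := Nat.find_spec hex
  have hle : Nat.find hex ≤ s := Nat.find_min' hex ⟨A, hA, hV, hI⟩
  have hmin := fun m => Nat.find_min hex (m := m)
  generalize Nat.find hex = j at *
  refine h j hle A' ⟨h1, h3, fun i => ?_⟩ h2
  have hcard : Fintype.card {l : Fin j // l ≠ i} = j - 1 := by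
    simp [Fintype.card_subtype_compl]
  let e : Fin (j-1) ≃ {l : Fin j // l ≠ i} := (Fintype.equivFinOfCardEq hcard).symm
  apply Ind_equiv W _ e
  by_contra hc
  have hjpos : 0 < j := Fin.pos i
  refine hmin (j - 1) (by omega) ⟨_, (h1.comp Subtype.val_injective).comp e.injective, ?_, hc⟩
  rintro _ ⟨l, rfl⟩
  exact h2 ⟨_, rfl⟩

/-! ### The graph of a relation -/

section graph

variable {Pt : Type}

/-- the bipartite graph of a relation, with isolated vertices added -/
def GR (V : Set Pt) (R : Pt → Pt → Prop) (r : ℕ) : SimpleGraph ((V ⊕ V) ⊕ Fin r) where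
  Adj a b := (∃ x y : V, a = Sum.inl (Sum.inl x) ∧ b = Sum.inl (Sum.inr y) ∧ R x y) ∨
    (∃ x y : V, b = Sum.inl (Sum.inl x) ∧ a = Sum.inl (Sum.inr y) ∧ R x y)
  symm := ⟨fun a b h => h.symm⟩
  loopless := ⟨by
    rintro a (⟨x, y, h1, h2, _⟩ | ⟨x, y, h1, h2, _⟩)
    · rw [h1] at h2; simp at h2
    · rw [h1] at h2; simp at h2⟩

theorem le_ncard {t : ℕ} {S : Set Pt} (hS : S.Finite) (B : Fin t → Pt)
    (hB : Function.Injective B) (hr : ∀ j, B j ∈ S) : t ≤ S.ncard := by
  have h1 : (Set.range B).ncard = t := by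
    rw [← Set.image_univ, Set.ncard_image_of_injective _ hB, Set.ncard_univ, Nat.card_fin]
  rw [← h1]
  apply Set.ncard_le_ncard _ hS
  rintro _ ⟨j, rfl⟩
  exact hr j

theorem KST : S_KST := by
  classical
  intro s t n Pt V R hs hst hV hn h
  haveI : Fintype V := hV.fintype
  set v := V.ncard with hv
  have hcV : Fintype.card V = v := by
    rw [hv, ← Nat.card_coe_set_eq, Nat.card_eq_fintype_card]
  set G := GR V R (n - 2 * v) with hG
  have hcard : Fintype.card ((V ⊕ V) ⊕ Fin (n - 2 * v)) = n := by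
    rw [Fintype.card_sum, Fintype.card_sum, Fintype.card_fin, hcV]
    omega
  have hfree : (completeBipartiteGraph (Fin s) (Fin t)).Free G := by
    rintro ⟨φ⟩
    have hadj : ∀ (i : Fin s) (j : Fin t), G.Adj (φ (Sum.inl i)) (φ (Sum.inr j)) := by
      intro i j
      apply φ.toHom.map_adj
      simp [completeBipartiteGraph]
    have hinj : Function.Injective φ := φ.injective
    let i0 : Fin s := ⟨0, by omega⟩
    let j0 : Fin t := ⟨0, by omega⟩
    rcases hadj i0 j0 with ⟨x0, y0, hx0, hy0, _⟩ | ⟨x0, y0, hx0, hy0, _⟩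
    · have hA : ∀ i, ∃ x : V, φ (Sum.inl i) = Sum.inl (Sum.inl x) := by
        intro i
        rcases hadj i j0 with ⟨x, y, h1, h2, _⟩ | ⟨x, y, h1, h2, _⟩
        · exact ⟨x, h1⟩
        · rw [hy0] at h1; simp at h1
      choose A hA using hA
      have hB : ∀ j, ∃ y : V, φ (Sum.inr j) = Sum.inl (Sum.inr y) := by
        intro j
        rcases hadj i0 j with ⟨x, y, h1, h2, _⟩ | ⟨x, y, h1, h2, _⟩
        · exact ⟨y, h2⟩
        · rw [hx0] at h2; simp at h2
      choose B hB using hB
      have hR : ∀ i j, R (A i) (B j) := by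
        intro i j
        rcases hadj i j with ⟨x, y, h1, h2, h3⟩ | ⟨x, y, h1, h2, _⟩
        · rw [hA] at h1
          rw [hB] at h2
          simp only [Sum.inl.injEq, Sum.inr.injEq] at h1 h2
          rw [h1, h2]
          exact h3
        · rw [hA] at h2; simp at h2
      have hAi : Function.Injective (fun i => (A i : Pt)) := by
        intro i i' hii
        have h1 : A i = A i' := Subtype.ext hii
        have h2 : φ (Sum.inl i) = φ (Sum.inl i') := by rw [hA, hA, h1]
        exact Sum.inl_injective (hinj h2)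
      have hBi : Function.Injective (fun j => (B j : Pt)) := by
        intro i i' hii
        have h1 : B i = B i' := Subtype.ext hii
        have h2 : φ (Sum.inr i) = φ (Sum.inr i') := by rw [hB, hB, h1]
        exact Sum.inr_injective (hinj h2)
      have h1 := (h (fun i => (A i : Pt)) hAi (by rintro _ ⟨i, rfl⟩; exact (A i).2)).1
      have h2 := le_ncard (hV.subset fun y hy => hy.1) (fun j => (B j : Pt)) hBi
        (S := {y | y ∈ V ∧ ∀ i, R (A i) y}) (fun j => ⟨(B j).2, fun i => hR i j⟩)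
      omega
    · have hA : ∀ i, ∃ x : V, φ (Sum.inl i) = Sum.inl (Sum.inr x) := by
        intro i
        rcases hadj i j0 with ⟨x, y, h1, h2, _⟩ | ⟨x, y, h1, h2, _⟩
        · rw [hx0] at h2; simp at h2
        · exact ⟨y, h2⟩
      choose A hA using hA
      have hB : ∀ j, ∃ y : V, φ (Sum.inr j) = Sum.inl (Sum.inl y) := by
        intro j
        rcases hadj i0 j with ⟨x, y, h1, h2, _⟩ | ⟨x, y, h1, h2, _⟩
        · rw [hy0] at h1; simp at h1
        · exact ⟨x, h1⟩
      choose B hB using hB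
      have hR : ∀ i j, R (B j) (A i) := by
        intro i j
        rcases hadj i j with ⟨x, y, h1, h2, _⟩ | ⟨x, y, h1, h2, h3⟩
        · rw [hA] at h1; simp at h1
        · rw [hB] at h1
          rw [hA] at h2
          simp only [Sum.inl.injEq, Sum.inr.injEq] at h1 h2
          rw [h1, h2]
          exact h3
      have hAi : Function.Injective (fun i => (A i : Pt)) := by
        intro i i' hii
        have h1 : A i = A i' := Subtype.ext hii
        have h2 : φ (Sum.inl i) = φ (Sum.inl i') := by rw [hA, hA, h1]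
        exact Sum.inl_injective (hinj h2)
      have hBi : Function.Injective (fun j => (B j : Pt)) := by
        intro i i' hii
        have h1 : B i = B i' := Subtype.ext hii
        have h2 : φ (Sum.inr i) = φ (Sum.inr i') := by rw [hB, hB, h1]
        exact Sum.inr_injective (hinj h2)
      have h1 := (h (fun i => (A i : Pt)) hAi (by rintro _ ⟨i, rfl⟩; exact (A i).2)).2
      have h2 := le_ncard (hV.subset fun y hy => hy.1) (fun j => (B j : Pt)) hBi
        (S := {y | y ∈ V ∧ ∀ i, R y (A i)}) (fun j => ⟨(B j).2, fun i => hR i j⟩)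
      omega
  have h1 := SimpleGraph.card_edgeFinset_le_extremalNumber hfree
  rw [hcard] at h1
  refine le_trans ?_ h1
  have e1 : {z : Pt × Pt | z.1 ∈ V ∧ z.2 ∈ V ∧ R z.1 z.2} =
      (fun z : V × V => ((z.1 : Pt), (z.2 : Pt))) '' {z | R z.1 z.2} := by
    ext ⟨x, y⟩
    simp only [Set.mem_setOf_eq, Set.mem_image, Prod.mk.injEq, Prod.exists]
    constructor
    · rintro ⟨hx, hy, hR⟩
      exact ⟨⟨x, hx⟩, ⟨y, hy⟩, hR, rfl, rfl⟩
    · rintro ⟨a, b, hR, rfl, rfl⟩
      exact ⟨a.2, b.2, hR⟩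
  rw [e1, Set.ncard_image_of_injective _ (by
    rintro ⟨a, b⟩ ⟨c, d⟩ hh
    simp only [Prod.mk.injEq] at hh
    exact Prod.ext (Subtype.ext hh.1) (Subtype.ext hh.2))]
  have e2 : G.edgeFinset.card = G.edgeSet.ncard := by
    rw [Set.ncard_eq_toFinset_card']
    rfl
  rw [e2]
  apply Set.ncard_le_ncard_of_injOn
    (fun z : V × V => s(Sum.inl (Sum.inl z.1), Sum.inl (Sum.inr z.2)))
  · rintro ⟨x, y⟩ hR
    rw [SimpleGraph.mem_edgeSet]
    exact Or.inl ⟨x, y, rfl, rfl, hR⟩
  · rintro ⟨a, b⟩ _ ⟨c, d⟩ _ hh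
    simp only [Sym2.eq_iff, Sum.inl.injEq, Sum.inr.injEq, reduceCtorEq, and_false, or_false] at hh
    exact Prod.ext hh.1 hh.2

end graph

end Pool.Agent.N615.BK.CLEAN
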